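import Pool.Agent.H57.L.N882_UE_RegDefs

/-!
# Restriction of scalars for motivic and `ℓ`-adic homology: definitions
-/

set_option autoImplicit false

open CategoryTheory AlgebraicGeometry Pool.Agent.Y116.UV Pool.Agent.N882.UE

namespace Pool.Agent.H57.TB

/-- The scheme `X` over `k` as a scheme over the subfield `k₀`. -/
noncomputable def res (k₀ : Type) {k : Type} [Field k₀] [Field k] [Algebra k₀ k] (X : Sch k) :
    Sch k₀ :=
  (Over.map (Spec.map (CommRingCat.ofHom (algebraMap k₀ k)))).obj X

/-- The vector space `V₀` with the endomorphism `F₀` and the homomorphism `r₀ : M₀ → V₀` is induced from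
`V`, `F`, `r : M → V`: up to isomorphism `M₀ = M` and `V₀ = V ⊕ ⋯ ⊕ V` with `n + 1` summands, `r₀` has the
components `r`, and `F₀ (v_0, …, v_n) = (v_1, …, v_n, F v_0)`. -/
def Induced {Ω M₀ V₀ M V : Type} [Field Ω] [AddCommGroup M₀] [AddCommGroup V₀] [Module Ω V₀]
    [AddCommGroup M] [AddCommGroup V] [Module Ω V] (n : ℕ) (F₀ : V₀ →ₗ[Ω] V₀) (r₀ : M₀ →+ V₀)
    (F : V →ₗ[Ω] V) (r : M →+ V) : Prop :=
  ∃ (f : M₀ ≃+ M) (g : V₀ ≃ₗ[Ω] (Fin (n + 1) → V)),
    (∀ x s, g (r₀ x) s = r (f x)) ∧ (∀ e (s : Fin n), g (F₀ e) s.castSucc = g e s.succ) ∧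
    ∀ e, g (F₀ e) (Fin.last n) = F (g e 0)

/-- Let `k / k₀` be an extension of degree `n + 1` of finite fields and let `X₀` be the scheme `X` over
`k`, regarded as a scheme over `k₀`. The motivic homology of `X` and `X₀` is the same; the base change
of `X₀` to the algebraic closure is the disjoint union of the `n + 1` conjugates of that of `X`, so that
the `ℓ`-adic homology of `X₀` is `E ⊕ ⋯ ⊕ E` with `n + 1` summands `E`, the `ℓ`-adic homology of `X`; the
Frobenius of `X₀` permutes the summands cyclically and its power `n + 1` is the Frobenius of `X` (the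
representation is induced), and the regulator of `X₀` has the regulator of `X` as components. -/
def IsInduced {k₀ k Ω : Type} [Field k₀] [Field k] [Field Ω] (T₀ : Homology k₀ Ω)
    (T : Homology k Ω) (n : ℕ) (X₀ : Sch k₀) (X : Sch k) : Prop :=
  ∀ i j : ℤ, Induced n (T₀.frob X₀ i j) (T₀.reg X₀ i j) (T.frob X i j) (T.reg X i j)

end Pool.Agent.H57.TB
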