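import Pool.Agent.H57.TB.Defs
import Pool.Agent.H57.L.N882_UE_Reg
import Pool.Agent.H57.ZP.KMain

/-!
# The conjecture TB: closure properties and restriction of scalars
-/

set_option autoImplicit false

open CategoryTheory AlgebraicGeometry MvPolynomial Pool.Agent.Y116.UV Pool.Agent.Z125.UN
  Pool.Agent.N882.UE

namespace Pool.Agent.H57.TB

lemma range_one {k : Type} [CommRing k] (n : ℕ) : Set.range (𝟙 (aff k k) : aff k k ⟶ aff k k).left =
    {x : PrimeSpectrum k | ∃ l, f1 k n l ∉ x.asIdeal} := by
  have h1 : Set.range (𝟙 (aff k k) : aff k k ⟶ aff k k).left = Set.univ := Set.range_id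
  have h2 : {x : PrimeSpectrum k | ∃ l, f1 k n l ∉ x.asIdeal} = Set.univ := by
    rw [Set.eq_univ_iff_forall]
    intro x
    exact ⟨0, fun h => x.isPrime.ne_top ((Ideal.eq_top_iff_one _).mpr h)⟩
  exact h1.trans h2.symm

/-- The class of schemes with the property `TB` has the closure properties `Bnd` (from the starting
library, `N882_UE_Tb`). -/
theorem bnd_tb {k Ω : Type} [Field k] [Field Ω] [CharZero Ω] {T : Homology k Ω}
    (hT : IsTheory T) (h1 : TB T (aff k k)) : Bnd True (TB T) := by
  have hbun : ∀ (B : Type) [CommRing B] [Algebra k B] [Algebra.FiniteType k B] (m : ℕ)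
      (f : Fin m → B) (U : Sch k) (j : U ⟶ aff k B), IsOpenImmersion j.left →
      Set.range j.left = {x : PrimeSpectrum B | ∃ l, f l ∉ x.asIdeal} →
      (TB T U ↔ TB T (aff k (Jou f))) := by
    intro B _ _ _ m f U j hj hr
    obtain ⟨h2, h3⟩ := hT.bundle B m f U j hj hr
    exact ⟨tb_factor hT h2, tb_factor hT h3⟩
  exact
  { iso := fun hX e h2 => tb_factor hT (hT.iso hX e) h2
    total := fun i j hX ht hZ hU => tb_total hT (hT.localization i j hX ht) hZ hU
    opened := fun i j hX ht hZ hX' => tb_opened hT (hT.localization i j hX ht) hZ hX'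
    closed := fun i j hX ht hX' hU => tb_closed hT (hT.localization i j hX ht) hX' hU
    space := fun n => by
      have h2 := (hbun k (n + 1) (f1 k n) (aff k k) (𝟙 _) inferInstance (range_one n)).mp h1
      exact tb_factor hT (hT.iso (ft_aff True) ⟨(affIso (jouOne k n)).symm⟩) h2
    jouanolou := fun B _ _ _ m f U j hj hr h2 => (hbun B m f U j hj hr).mpr h2
    torus := fun B _ _ _ h2 => tb_factor hT (hT.torus B) h2
    bundle := fun B _ _ _ m f U j hj hr h2 => (hbun B m f U j hj hr).mp h2 }

lemma ft_res {k₀ k : Type} [Field k₀] [Field k] [Algebra k₀ k] [Algebra.FiniteType k₀ k]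
    {X : Sch k} (hX : FT True X) : FT True (res k₀ X) := by
  have h0 : LocallyOfFiniteType (Spec.map (CommRingCat.ofHom (algebraMap k₀ k))) := by
    rw [HasRingHomProperty.Spec_iff (P := @LocallyOfFiniteType)]
    exact RingHom.finiteType_algebraMap.mpr inferInstance
  have h1 := hX.locallyOfFiniteType
  have h2 := hX.quasiCompact
  have h3 := hX.separated trivial
  have a1 : ∀ {Y Z V : Scheme} (a : Y ⟶ Z) (b : Z ⟶ V), LocallyOfFiniteType a →
      LocallyOfFiniteType b → LocallyOfFiniteType (a ≫ b) := fun a b _ _ => inferInstance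
  have a2 : ∀ {Y Z V : Scheme} (a : Y ⟶ Z) (b : Z ⟶ V), QuasiCompact a →
      QuasiCompact b → QuasiCompact (a ≫ b) := fun a b _ _ => inferInstance
  have a3 : ∀ {Y Z V : Scheme} (a : Y ⟶ Z) (b : Z ⟶ V), IsSeparated a →
      IsSeparated b → IsSeparated (a ≫ b) := fun a b _ _ => inferInstance
  exact ⟨a1 X.hom (Spec.map (CommRingCat.ofHom (algebraMap k₀ k))) h1 h0,
    a2 X.hom (Spec.map (CommRingCat.ofHom (algebraMap k₀ k))) h2 inferInstance,
    fun _ => a3 X.hom (Spec.map (CommRingCat.ofHom (algebraMap k₀ k))) h3 inferInstance⟩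

/-- Restriction of scalars for the conjecture. -/
theorem tb_of_res {k₀ k Ω : Type} [Field k₀] [Field k] [Field Ω] [CharZero Ω]
    {T₀ : Homology k₀ Ω} {T : Homology k Ω} {n : ℕ} {X₀ : Sch k₀} {X : Sch k}
    (h : IsInduced T₀ T n X₀ X) (h0 : TB T₀ X₀) : TB T X := by
  intro i j
  obtain ⟨f, g, h1, h2, h3⟩ := h i j
  obtain ⟨t1, t2, t3⟩ := h0 i j
  have hinv : ∀ v : Fin (n + 1) → T.E X i j, (∀ s : Fin n, v s.succ = v s.castSucc) →
      T.frob X i j (v 0) = v (Fin.last n) → T₀.frob X₀ i j (g.symm v) = g.symm v := by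
    intro v hv1 hv2
    apply g.injective
    funext s
    refine Fin.lastCases ?_ (fun s => ?_) s
    · rw [h3, g.apply_symm_apply, hv2]
    · rw [h2, g.apply_symm_apply, hv1]
  have hreg : ∀ y, T.frob X i j (T.reg X i j y) = T.reg X i j y := by
    intro y
    have k1 : T₀.frob X₀ i j (T₀.reg X₀ i j (f.symm y)) = T₀.reg X₀ i j (f.symm y) :=
      (t1 _).mpr (Submodule.subset_span ⟨_, rfl⟩)
    have k2 := h3 (T₀.reg X₀ i j (f.symm y))
    rw [k1, h1, h1, f.apply_symm_apply] at k2
    exact k2.symm
  refine ⟨fun e => ⟨fun he => ?_, fun he => ?_⟩, fun r x hx => ?_, fun e he => ?_⟩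
  · have k1 := (t1 (g.symm fun _ => e)).mp (hinv _ (fun _ => rfl) he)
    have k2 : ∀ v ∈ Submodule.span Ω (Set.range (T₀.reg X₀ i j)), g v 0 ∈
        Submodule.span Ω (Set.range (T.reg X i j)) := by
      intro v hv
      induction hv using Submodule.span_induction with
      | mem v hv =>
        obtain ⟨x, rfl⟩ := hv
        rw [h1]
        exact Submodule.subset_span ⟨_, rfl⟩
      | zero =>
        rw [map_zero]
        exact Submodule.zero_mem _
      | add v w _ _ hv hw =>
        rw [map_add]
        exact Submodule.add_mem _ hv hw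
      | smul c v _ hv =>
        rw [map_smul]
        exact Submodule.smul_mem _ c hv
    have k3 := k2 _ k1
    rwa [g.apply_symm_apply] at k3
  · induction he using Submodule.span_induction with
    | mem v hv =>
      obtain ⟨x, rfl⟩ := hv
      exact hreg x
    | zero => exact map_zero _
    | add v w _ _ hv hw => rw [map_add, hv, hw]
    | smul c v _ hv => rw [map_smul, hv]
  · have k1 : LinearIndependent ℚ fun l => f.symm (x l) := by
      have k2 := hx.map' (f.symm.toAddMonoidHom.toRatLinearMap) (LinearMap.ker_eq_bot.mpr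
        f.symm.injective)
      exact k2
    have k2 := t2 r _ k1
    rw [Fintype.linearIndependent_iff] at k2 ⊢
    intro c hc
    refine k2 c ?_
    apply g.injective
    rw [map_sum, map_zero]
    funext s
    rw [Finset.sum_apply]
    refine Eq.trans (Finset.sum_congr rfl fun l _ => ?_) hc
    rw [map_smul, Pi.smul_apply, h1, f.apply_symm_apply]
  · have hn : ((n : Ω) + 1) ≠ 0 := Nat.cast_add_one_ne_zero n
    let w : T.E X i j := T.frob X i j e - e
    let v : Fin (n + 1) → T.E X i j := fun s => e + ((s : ℕ) / ((n : Ω) + 1)) • w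
    have hw : T.frob X i j w = w := he
    have hd : T₀.frob X₀ i j (g.symm v) - g.symm v = g.symm fun _ => (1 / ((n : Ω) + 1)) • w := by
      apply g.injective
      rw [map_sub, g.apply_symm_apply, g.apply_symm_apply]
      funext s
      rw [Pi.sub_apply]
      refine Fin.lastCases ?_ (fun s => ?_) s
      · rw [h3, g.apply_symm_apply]
        change T.frob X i j (e + (((0 : Fin (n + 1)) : ℕ) / ((n : Ω) + 1)) • w) -
          (e + (((Fin.last n : Fin (n + 1)) : ℕ) / ((n : Ω) + 1)) • w) = _
        rw [Fin.val_zero, Nat.cast_zero, zero_div, zero_smul, add_zero, Fin.val_last]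
        have k1 : T.frob X i j e = e + w := (add_sub_cancel _ _).symm
        rw [k1, add_sub_add_left_eq_sub]
        nth_rewrite 1 [← one_smul Ω w]
        rw [← sub_smul]
        congr 1
        field_simp
        ring
      · rw [h2, g.apply_symm_apply]
        change (e + (((s.succ : Fin (n + 1)) : ℕ) / ((n : Ω) + 1)) • w) -
          (e + (((s.castSucc : Fin (n + 1)) : ℕ) / ((n : Ω) + 1)) • w) = _
        rw [add_sub_add_left_eq_sub, ← sub_smul, Fin.val_succ, Fin.val_castSucc]
        congr 1
        push_cast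
        field_simp
        ring
    have k1 : T₀.frob X₀ i j (g.symm v) = g.symm v := by
      refine t3 _ ?_
      rw [hd]
      refine hinv _ (fun _ => rfl) ?_
      rw [map_smul, hw]
    rw [k1, sub_self] at hd
    have k2 : (1 / ((n : Ω) + 1)) • w = 0 := by
      have k3 := congrArg g hd
      rw [map_zero, g.apply_symm_apply] at k3
      exact (congrFun k3 0).symm
    have k3 : w = 0 := by
      rcases smul_eq_zero.mp k2 with k4 | k4
      · exact absurd k4 (one_div_ne_zero hn)
      · exact k4
    exact sub_eq_zero.mp k3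

end Pool.Agent.H57.TB
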